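import Mathlib

set_option autoImplicit false

/-!
Homoscedastic linear structural equation models, part 1: an algebraic lemma on two families of
quadratic forms which satisfy the same polynomial relations (Krull-free replacement for the
statement that two varieties with the same closure have the same dual variety).
-/

namespace Pool.Agent.Q287.SM

open MvPolynomial
open scoped Matrix

/-- Chain rule. -/
theorem chain {J ι : Type*} [Fintype J] (q : J → MvPolynomial ι ℝ) (f : MvPolynomial J ℝ)
    (e : ι) : pderiv e (aeval q f) = ∑ j, aeval q (pderiv j f) * pderiv e (q j) := by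
  classical
  induction f using MvPolynomial.induction_on with
  | C a => simp
  | add p r hp hr =>
    rw [map_add, map_add, hp, hr]
    simp only [map_add, add_mul, Finset.sum_add_distrib]
  | mul_X p i h =>
    rw [map_mul, aeval_X, pderiv_mul, h]
    simp only [pderiv_mul, map_add, map_mul, aeval_X, pderiv_X, add_mul, Finset.sum_add_distrib]
    congr 1
    · rw [Finset.sum_mul]
      exact Finset.sum_congr rfl fun j _ => by ring
    · rw [Finset.sum_eq_single i]
      · simp
      · intro j _ hj
        simp [hj.symm]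
      · intro h; exact absurd (Finset.mem_univ i) h

/-- A nonzero partial derivative has smaller total degree. -/
theorem tdeg_pderiv_lt {J : Type*} (p : MvPolynomial J ℝ) (j : J) (h : pderiv j p ≠ 0) :
    (pderiv j p).totalDegree < p.totalDegree := by
  classical
  obtain ⟨m, hm, hm2⟩ := Finset.exists_mem_eq_sup (pderiv j p).support
    (support_nonempty.mpr h) (fun s => s.sum fun _ e => e)
  have h1 : (pderiv j p).totalDegree = m.sum fun _ e => e := hm2
  have h2 : coeff (m + Finsupp.single j 1) p ≠ 0 := by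
    intro h0
    rw [mem_support_iff, coeff_pderiv, h0, zero_mul] at hm
    exact hm rfl
  have h3 := le_totalDegree (mem_support_iff.mpr h2)
  rw [Finsupp.sum_add_index' (fun _ => rfl) (fun _ _ _ => rfl),
    Finsupp.sum_single_index rfl] at h3
  omega

/-- A polynomial all of whose partial derivatives vanish is constant. -/
theorem eq_C_of_pderiv {J : Type*} (p : MvPolynomial J ℝ) (h : ∀ j, pderiv j p = 0) :
    p = C (coeff 0 p) := by
  classical
  ext m
  rw [coeff_C]
  split_ifs with hm
  · rw [← hm]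
  · have : ∃ j, m j ≠ 0 := by
      by_contra hc
      push Not at hc
      exact hm (Finsupp.ext fun j => (hc j).symm)
    obtain ⟨j, hj⟩ := this
    have h1 := congrArg (coeff (m - Finsupp.single j 1)) (h j)
    rw [coeff_pderiv, coeff_zero] at h1
    have h2 : m - Finsupp.single j 1 + Finsupp.single j 1 = m := by
      ext i
      rw [Finsupp.add_apply, Finsupp.tsub_apply]
      by_cases hij : i = j
      · subst hij
        simp
        omega
      · simp [Ne.symm hij]
    rw [h2] at h1
    rcases mul_eq_zero.mp h1 with h3 | h3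
    · exact h3
    · exact absurd h3 (by positivity)

/-- More polynomials than variables are algebraically dependent. -/
theorem exists_rel {ι : Type*} [Fintype ι] (q : Option ι → MvPolynomial ι ℝ) :
    ∃ p : MvPolynomial (Option ι) ℝ, p ≠ 0 ∧ aeval q p = 0 := by
  classical
  by_contra hc
  push Not at hc
  have h1 : AlgebraicIndependent ℝ q := by
    rw [algebraicIndependent_iff]
    intro p hp
    by_contra h0
    exact hc p h0 hp
  have h2 := h1.lift_cardinalMk_le_trdeg
  rw [MvPolynomial.trdeg_of_isDomain] at h2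
  simp only [Cardinal.mk_fintype, Fintype.card_option, Cardinal.lift_natCast] at h2
  have h3 := Nat.cast_le.mp h2
  omega

/-- A nonzero relation of least total degree involves the last form, and its derivative in the
last variable is not a relation. -/
theorem exists_min_rel {ι : Type*} [Fintype ι] [DecidableEq ι]
    (q : Option ι → MvPolynomial ι ℝ)
    (hg : (Matrix.of fun e e0 => pderiv e (q (some e0))).det ≠ 0) :
    ∃ p : MvPolynomial (Option ι) ℝ, aeval q p = 0 ∧ aeval q (pderiv none p) ≠ 0 := by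
  classical
  have hex : ∃ n : ℕ, ∃ p : MvPolynomial (Option ι) ℝ, p ≠ 0 ∧ aeval q p = 0 ∧
      p.totalDegree = n := by
    obtain ⟨p, hp, hp2⟩ := exists_rel q
    exact ⟨_, p, hp, hp2, rfl⟩
  obtain ⟨p, hp, hp2, hp3⟩ := Nat.find_spec hex
  have hmin : ∀ j, aeval q (pderiv j p) = 0 → pderiv j p = 0 := by
    intro j hj
    by_contra h0
    have h1 := tdeg_pderiv_lt p j h0
    rw [hp3] at h1
    exact Nat.find_min hex h1 ⟨_, h0, hj, rfl⟩
  refine ⟨p, hp2, fun hY => ?_⟩
  have hrel : ∀ e, ∑ e0, pderiv e (q (some e0)) * aeval q (pderiv (some e0) p) = 0 := by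
    intro e
    have h1 := chain q p e
    rw [hp2, map_zero, Fintype.sum_option, hY, zero_mul, zero_add] at h1
    rw [h1]
    exact Finset.sum_congr rfl fun _ _ => mul_comm _ _
  have hP : (fun e0 => aeval q (pderiv (some e0) p)) = 0 := by
    by_contra h0
    exact hg (Matrix.exists_mulVec_eq_zero_iff.mp ⟨_, h0, by
      ext1 e
      exact hrel e⟩)
  have hall : ∀ j, pderiv j p = 0 := by
    intro j
    cases j with
    | none => exact hmin none hY
    | some e => exact hmin _ (congrFun hP e)
  have hc := eq_C_of_pderiv p hall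
  rw [hc, aeval_C] at hp2
  have h3 : coeff 0 p = 0 := by
    simpa using hp2
  rw [h3, C_0] at hc
  exact hp hc

/-- Substitution into a linear combination of constant matrices. -/
theorem map_lin {J κ ι ι₂ : Type*} [Fintype ι] [DecidableEq ι₂] (q : J → MvPolynomial κ ℝ)
    (a : MvPolynomial J ℝ) (c : ι → MvPolynomial J ℝ) (M : ι → Matrix ι₂ ι₂ ℝ) :
    (a • (1 : Matrix ι₂ ι₂ (MvPolynomial J ℝ)) + ∑ e, c e • (M e).map C).map (aeval q) =
      (aeval q a) • (1 : Matrix ι₂ ι₂ (MvPolynomial κ ℝ)) +
        ∑ e, (aeval q (c e)) • (M e).map C := by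
  ext1 i j
  rw [Matrix.map_apply, Matrix.add_apply, Matrix.add_apply, Matrix.smul_apply, Matrix.smul_apply,
    Matrix.sum_apply, Matrix.sum_apply, map_add, map_sum, smul_eq_mul, smul_eq_mul, map_mul,
    Matrix.one_apply, Matrix.one_apply]
  congr 1
  · split_ifs <;> simp
  · refine Finset.sum_congr rfl fun e _ => ?_
    rw [Matrix.smul_apply, Matrix.smul_apply, smul_eq_mul, smul_eq_mul, map_mul, Matrix.map_apply,
      Matrix.map_apply, aeval_C, algebraMap_eq]

/-- The algebraic lemma. Two families of quadratic forms with the same polynomial relations; the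
last form of the first family has a critical point at which the gradients of the others are the
unit vectors. Then the last form of the second family is degenerate. -/
theorem det_eq_zero {ι₁ ι₂ : Type*} [Fintype ι₁] [DecidableEq ι₁] [Fintype ι₂] [DecidableEq ι₂]
    [Nonempty ι₂] (q₁ : Option ι₁ → MvPolynomial ι₁ ℝ) (q₂ : Option ι₁ → MvPolynomial ι₂ ℝ)
    (S₁ : Option ι₁ → Matrix ι₁ ι₁ ℝ) (S₂ : Option ι₁ → Matrix ι₂ ι₂ ℝ)
    (h₁ : ∀ j e, pderiv e (q₁ j) = ∑ e', C (S₁ j e e') * X e')
    (h₂ : ∀ j e, pderiv e (q₂ j) = ∑ e', C (S₂ j e e') * X e')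
    (hrel : ∀ f : MvPolynomial (Option ι₁) ℝ, aeval q₁ f = 0 ↔ aeval q₂ f = 0)
    (b : ι₁ → ℝ) (hb : ∀ e, ∑ e', S₁ none e e' * b e' = 0)
    (hG : ∀ e e0, ∑ e', S₁ (some e0) e e' * b e' = if e = e0 then 1 else 0) :
    (S₂ none).det = 0 := by
  classical
  by_contra hdet
  set G : Matrix ι₁ ι₁ (MvPolynomial ι₁ ℝ) := Matrix.of fun e e0 => pderiv e (q₁ (some e0))
    with hGdef
  have hGb : G.map (eval b) = 1 := by
    ext e e0
    rw [Matrix.map_apply, hGdef, Matrix.of_apply, h₁, map_sum]
    simp only [map_mul, eval_C, eval_X]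
    rw [hG, Matrix.one_apply]
  have hgb : eval b G.det = 1 := by
    rw [RingHom.map_det, RingHom.mapMatrix_apply, hGb, Matrix.det_one]
  have hg0 : G.det ≠ 0 := by
    intro h0
    rw [h0, map_zero] at hgb
    exact zero_ne_one hgb
  obtain ⟨p, hp, hpY⟩ := exists_min_rel q₁ hg0
  set M : ι₁ → Matrix ι₂ ι₂ ℝ := fun e => S₂ (some e) * (S₂ none)⁻¹ with hM
  have hMS : ∀ e, M e * S₂ none = S₂ (some e) := by
    intro e
    rw [hM]
    simp only
    rw [Matrix.mul_assoc, Matrix.nonsing_inv_mul _ (isUnit_iff_ne_zero.mpr hdet), Matrix.mul_one]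
  set A : Matrix ι₂ ι₂ (MvPolynomial (Option ι₁) ℝ) :=
    (pderiv none p) • (1 : Matrix ι₂ ι₂ (MvPolynomial (Option ι₁) ℝ)) +
      ∑ e, (pderiv (some e) p) • (M e).map C with hA
  -- the second side
  set v : ι₂ → MvPolynomial ι₂ ℝ := fun e => pderiv e (q₂ none) with hv
  have hvS : v = (S₂ none).map C *ᵥ X := by
    ext1 e
    rw [hv, Matrix.mulVec, dotProduct]
    simp only [h₂, Matrix.map_apply]
  have hv0 : v ≠ 0 := by
    intro h0
    have h1 : ((S₂ none)⁻¹).map C *ᵥ v = (X : ι₂ → MvPolynomial ι₂ ℝ) := by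
      rw [hvS, Matrix.mulVec_mulVec, ← Matrix.map_mul,
        Matrix.nonsing_inv_mul _ (isUnit_iff_ne_zero.mpr hdet)]
      rw [Matrix.map_one _ C_0 C_1, Matrix.one_mulVec]
    rw [h0, Matrix.mulVec_zero] at h1
    exact X_ne_zero (Classical.arbitrary ι₂) (congrFun h1 (Classical.arbitrary ι₂)).symm
  have hMv : ∀ e, (M e).map C *ᵥ v = fun e' => pderiv e' (q₂ (some e)) := by
    intro e
    rw [hvS, Matrix.mulVec_mulVec, ← Matrix.map_mul, hMS]
    ext1 e'
    rw [Matrix.mulVec, dotProduct]
    simp only [h₂, Matrix.map_apply]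
  have hA2 : (A.map (aeval q₂)) =
      (aeval q₂ (pderiv none p)) • (1 : Matrix ι₂ ι₂ (MvPolynomial ι₂ ℝ))
      + ∑ e, (aeval q₂ (pderiv (some e) p)) • (M e).map C := map_lin _ _ _ _
  have hker : (A.map (aeval q₂)) *ᵥ v = 0 := by
    rw [hA2, Matrix.add_mulVec, Matrix.smul_mulVec, Matrix.one_mulVec, Matrix.sum_mulVec]
    simp only [Matrix.smul_mulVec, hMv]
    ext1 e
    have h3 := chain q₂ p e
    rw [(hrel p).mp hp, map_zero, Fintype.sum_option] at h3
    simp only [Pi.add_apply, Pi.smul_apply, smul_eq_mul, Finset.sum_apply, Pi.zero_apply]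
    exact h3.symm
  have hdet2 : (A.map (aeval q₂)).det = 0 := Matrix.exists_mulVec_eq_zero_iff.mp ⟨v, hv0, hker⟩
  have hdet1 : (A.map (aeval q₁)).det = 0 := by
    have h4 : aeval q₂ A.det = 0 := by
      rw [AlgHom.map_det]
      exact hdet2
    have h5 := (hrel _).mpr h4
    rw [AlgHom.map_det] at h5
    exact h5
  -- the first side
  set u : ι₁ → MvPolynomial ι₁ ℝ := fun e => pderiv e (q₁ none) with hu
  set w : ι₁ → MvPolynomial ι₁ ℝ := G.adjugate *ᵥ u with hw
  have hwe : ∀ e, G.det * aeval q₁ (pderiv (some e) p) = -(aeval q₁ (pderiv none p) * w e) := by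
    have h6 : G *ᵥ (fun e0 => aeval q₁ (pderiv (some e0) p)) =
        -(aeval q₁ (pderiv none p) • u) := by
      ext1 e
      have h3 := chain q₁ p e
      rw [hp, map_zero, Fintype.sum_option] at h3
      rw [Matrix.mulVec, dotProduct]
      simp only [hGdef, Matrix.of_apply, Pi.neg_apply, Pi.smul_apply, smul_eq_mul, hu]
      rw [eq_neg_iff_add_eq_zero, h3, add_comm]
      congr 1
      exact Finset.sum_congr rfl fun _ _ => mul_comm _ _
    have h7 := congrArg (fun z => G.adjugate *ᵥ z) h6
    beta_reduce at h7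
    rw [Matrix.mulVec_mulVec, Matrix.adjugate_mul, Matrix.smul_mulVec, Matrix.one_mulVec,
      Matrix.mulVec_neg, Matrix.mulVec_smul] at h7
    intro e
    have h8 := congrFun h7 e
    simpa [hw] using h8
  set A' : Matrix ι₂ ι₂ (MvPolynomial ι₁ ℝ) :=
    G.det • (1 : Matrix ι₂ ι₂ (MvPolynomial ι₁ ℝ)) - ∑ e, w e • (M e).map C with hA'
  have hAA : G.det • (A.map (aeval q₁)) = (aeval q₁ (pderiv none p)) • A' := by
    have hA1 : (A.map (aeval q₁)) =
        (aeval q₁ (pderiv none p)) • (1 : Matrix ι₂ ι₂ (MvPolynomial ι₁ ℝ))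
        + ∑ e, (aeval q₁ (pderiv (some e) p)) • (M e).map C := map_lin _ _ _ _
    rw [hA1, hA', smul_add, smul_sub, Finset.smul_sum, Finset.smul_sum, smul_smul, smul_smul,
      mul_comm G.det, sub_eq_add_neg, ← Finset.sum_neg_distrib]
    congr 1
    refine Finset.sum_congr rfl fun e _ => ?_
    rw [smul_smul, smul_smul, hwe, neg_smul]
  have hA'0 : A'.det = 0 := by
    have h9 := congrArg Matrix.det hAA
    rw [Matrix.det_smul, Matrix.det_smul, hdet1, mul_zero] at h9
    rcases mul_eq_zero.mp h9.symm with h10 | h10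
    · exact absurd ((pow_eq_zero_iff Fintype.card_ne_zero).mp h10) hpY
    · exact h10
  have hub : ∀ e, eval b (u e) = 0 := by
    intro e
    rw [hu]
    simp only [h₁, map_sum, map_mul, eval_C, eval_X]
    exact hb e
  have hwb : ∀ e, eval b (w e) = 0 := by
    intro e
    rw [hw, Matrix.mulVec, dotProduct, map_sum]
    refine Finset.sum_eq_zero fun e' _ => ?_
    rw [map_mul, hub, mul_zero]
  have hA'b : A'.map (eval b) = 1 := by
    ext i j
    rw [Matrix.map_apply, hA', Matrix.sub_apply, Matrix.smul_apply, Matrix.sum_apply, map_sub,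
      map_sum, smul_eq_mul, map_mul, hgb, one_mul]
    rw [Finset.sum_eq_zero, sub_zero, Matrix.one_apply, Matrix.one_apply]
    · split_ifs <;> simp
    · intro e _
      rw [Matrix.smul_apply, smul_eq_mul, map_mul, hwb, zero_mul]
  have h11 : eval b A'.det = 1 := by
    rw [RingHom.map_det, RingHom.mapMatrix_apply, hA'b, Matrix.det_one]
  rw [hA'0, map_zero] at h11
  exact zero_ne_one h11

end Pool.Agent.Q287.SM
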