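import Pool.Agent.Q287.SM.Mod

set_option autoImplicit false

/-!
Homoscedastic linear structural equation models, part 3: the vanishing ideal of the model
determines the simple directed graph.
-/

namespace Pool.Agent.Q287.SM

open MvPolynomial
open scoped Matrix

universe u

noncomputable section

variable {V : Type u} [Fintype V] [DecidableEq V]

/-- The quadratic form of the matrix `H` on the parameters. -/
def qf (G : Dig V) (H : Matrix V V ℝ) : MvPolynomial (Option (Edge G)) ℝ :=
  ∑ p : V × V, C (H p.1 p.2) * ker2 G p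

/-- Its second derivatives. -/
def Sf (G : Dig V) (H : Matrix V V ℝ) : Matrix (Option (Edge G)) (Option (Edge G)) ℝ :=
  fun e e' => ∑ p : V × V, H p.1 p.2 *
    ∑ k, (dir G e p.1 k * dir G e' p.2 k + dir G e' p.1 k * dir G e p.2 k)

theorem pderiv_gen (G : Dig V) (e : Option (Edge G)) (i j : V) :
    pderiv e (gen G i j) = C (dir G e i j) := by
  classical
  rw [gen, map_sum, Finset.sum_eq_single e]
  · rw [pderiv_C_mul, pderiv_X_self, mul_one]
  · intro e' _ h
    rw [pderiv_C_mul, pderiv_X_of_ne h, mul_zero]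
  · intro h
    exact absurd (Finset.mem_univ _) h

theorem pderiv_ker2 (G : Dig V) (e : Option (Edge G)) (p : V × V) :
    pderiv e (ker2 G p) = ∑ e', C (∑ k, (dir G e p.1 k * dir G e' p.2 k +
      dir G e' p.1 k * dir G e p.2 k)) * X e' := by
  have h : ∀ k, pderiv e (gen G p.1 k * gen G p.2 k) =
      ∑ e', C (dir G e p.1 k * dir G e' p.2 k + dir G e' p.1 k * dir G e p.2 k) * X e' := by
    intro k
    rw [pderiv_mul, pderiv_gen, pderiv_gen, gen, gen, Finset.mul_sum, Finset.sum_mul,
      ← Finset.sum_add_distrib]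
    refine Finset.sum_congr rfl fun e' _ => ?_
    rw [C_add, C_mul, C_mul]
    ring
  rw [ker2, map_sum, Finset.sum_congr rfl fun k _ => h k, Finset.sum_comm]
  refine Finset.sum_congr rfl fun e' _ => ?_
  rw [map_sum, Finset.sum_mul]

theorem pderiv_qf (G : Dig V) (H : Matrix V V ℝ) (e : Option (Edge G)) :
    pderiv e (qf G H) = ∑ e', C (Sf G H e e') * X e' := by
  rw [qf, map_sum]
  simp only [pderiv_C_mul, pderiv_ker2, Finset.mul_sum]
  rw [Finset.sum_comm]
  refine Finset.sum_congr rfl fun e' _ => ?_
  rw [Sf, map_sum, Finset.sum_mul]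
  refine Finset.sum_congr rfl fun p _ => ?_
  rw [C_mul, mul_assoc]

theorem Sf_sum (G : Dig V) (H : Matrix V V ℝ) (e : Option (Edge G))
    (x : Option (Edge G) → ℝ) : ∑ e', Sf G H e e' * x e' = ∑ p : V × V, H p.1 p.2 *
      ∑ k, (dir G e p.1 k * mat G x p.2 k + mat G x p.1 k * dir G e p.2 k) := by
  simp only [Sf, mat_apply, Finset.mul_sum, Finset.sum_mul, ← Finset.sum_add_distrib]
  rw [Finset.sum_comm]
  refine Finset.sum_congr rfl fun p _ => ?_
  rw [Finset.sum_comm]
  refine Finset.sum_congr rfl fun k _ => ?_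
  refine Finset.sum_congr rfl fun e' _ => ?_
  ring

/-- For symmetric `H`. -/
theorem Sf_sum_symm (G : Dig V) (H : Matrix V V ℝ) (hH : Hᵀ = H) (e : Option (Edge G))
    (x : Option (Edge G) → ℝ) : ∑ e', Sf G H e e' * x e' =
      2 * ∑ i, ∑ k, dir G e i k * (H * mat G x) i k := by
  have h1 : ∑ p : V × V, H p.1 p.2 * ∑ k, dir G e p.1 k * mat G x p.2 k =
      ∑ i, ∑ k, dir G e i k * (H * mat G x) i k := by
    rw [Fintype.sum_prod_type]
    refine Finset.sum_congr rfl fun i _ => ?_
    simp only [Finset.mul_sum, Matrix.mul_apply]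
    rw [Finset.sum_comm]
    refine Finset.sum_congr rfl fun k _ => ?_
    refine Finset.sum_congr rfl fun j _ => ?_
    ring
  have h2 : ∑ p : V × V, H p.1 p.2 * ∑ k, mat G x p.1 k * dir G e p.2 k =
      ∑ i, ∑ k, dir G e i k * (H * mat G x) i k := by
    rw [Fintype.sum_prod_type, Finset.sum_comm]
    refine Finset.sum_congr rfl fun i _ => ?_
    simp only [Finset.mul_sum, Matrix.mul_apply]
    rw [Finset.sum_comm]
    refine Finset.sum_congr rfl fun k _ => ?_
    refine Finset.sum_congr rfl fun j _ => ?_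
    have h3 : H j i = H i j := by
      conv_lhs => rw [← hH]
      rfl
    rw [h3]
    ring
  rw [Sf_sum, two_mul]
  nth_rw 1 [← h1]
  rw [← h2, ← Finset.sum_add_distrib]
  refine Finset.sum_congr rfl fun p _ => ?_
  rw [← mul_add, ← Finset.sum_add_distrib]

theorem Sf_sum_none (G : Dig V) (H : Matrix V V ℝ) (hH : Hᵀ = H)
    (x : Option (Edge G) → ℝ) : ∑ e', Sf G H none e' * x e' =
      2 * ∑ i, (H * mat G x) i i := by
  rw [Sf_sum_symm G H hH]
  congr 1
  refine Finset.sum_congr rfl fun i _ => ?_
  rw [Finset.sum_eq_single i]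
  · simp [dir]
  · intro k _ hk
    simp [dir, hk.symm]
  · intro h
    exact absurd (Finset.mem_univ _) h

theorem Sf_sum_some (G : Dig V) (H : Matrix V V ℝ) (hH : Hᵀ = H) (p : Edge G)
    (x : Option (Edge G) → ℝ) : ∑ e', Sf G H (some p) e' * x e' =
      2 * (H * mat G x) p.1.1 p.1.2 := by
  rw [Sf_sum_symm G H hH]
  congr 1
  rw [Finset.sum_eq_single p.1.1, Finset.sum_eq_single p.1.2]
  · simp [dir]
  · intro k _ hk
    simp [dir, hk.symm]
  · intro h
    exact absurd (Finset.mem_univ _) h
  · intro i _ hi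
    refine Finset.sum_eq_zero fun k _ => ?_
    simp [dir, hi.symm]
  · intro h
    exact absurd (Finset.mem_univ _) h

/-- Substitution of the quadratic forms. -/
theorem aeval_qf (G : Dig V) {J : Type*} (Hf : J → Matrix V V ℝ) (f : MvPolynomial J ℝ) :
    aeval (fun j => qf G (Hf j)) f =
      phi G (aeval (fun j => ∑ p : V × V, C (Hf j p.1 p.2) * X p) f) := by
  have h : (fun j => qf G (Hf j)) =
      fun j => phi G (∑ p : V × V, C (Hf j p.1 p.2) * X p) := by
    funext j
    rw [qf, map_sum]
    refine Finset.sum_congr rfl fun p _ => ?_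
    rw [map_mul, phi, aeval_X, aeval_C, algebraMap_eq]
  rw [h]
  exact (congrFun (congrArg DFunLike.coe (comp_aeval (R := ℝ)
    (fun j => ∑ p : V × V, C (Hf j p.1 p.2) * (X p : MvPolynomial (V × V) ℝ)) (phi G))) f).symm

/-! ### The special point -/

/-- The number of nodes. -/
def N (V : Type u) [Fintype V] : ℝ := Fintype.card V

/-- The diagonal entries of the special form. -/
def hd (v i : V) : ℝ := if i = v then N V ^ 2 - N V + 1 else 1

/-- The special symmetric matrix. -/
def HH (u v : V) : Matrix V V ℝ := Matrix.diagonal (hd v) + Matrix.single u v (N V) +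
  Matrix.single v u (N V)

/-- The special matrix of the first model. -/
def BB (u v : V) : Matrix V V ℝ := 1 - Matrix.single u v (N V)

theorem HH_symm (u v : V) : (HH u v)ᵀ = HH u v := by
  rw [HH, Matrix.transpose_add, Matrix.transpose_add, Matrix.diagonal_transpose,
    Matrix.transpose_single, Matrix.transpose_single]
  abel

theorem HH_mul (u v : V) (Y : Matrix V V ℝ) (i j : V) :
    (HH u v * Y) i j = hd v i * Y i j + (if i = u then N V * Y v j else 0) +
      (if i = v then N V * Y u j else 0) := by
  rw [HH, Matrix.add_mul, Matrix.add_mul, Matrix.add_apply, Matrix.add_apply,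
    Matrix.diagonal_mul]
  congr 1
  · congr 1
    by_cases h : i = u
    · subst h
      simp
    · simp [h]
  · by_cases h : i = v
    · subst h
      simp
    · simp [h]

theorem sum_hd (v : V) : ∑ i, hd v i = N V ^ 2 := by
  have h : ∀ i, hd v i = 1 + (if i = v then N V ^ 2 - N V else 0) := by
    intro i
    rw [hd]
    split_ifs <;> ring
  simp only [h]
  rw [Finset.sum_add_distrib, Finset.sum_ite_eq' Finset.univ v]
  simp [N]

theorem mul_BB (u v : V) (D : Matrix V V ℝ) (i j : V) :
    ∑ k, D i k * BB u v j k = D i j - (if j = u then N V * D i v else 0) := by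
  have h : ∑ k, D i k * BB u v j k = (D * (BB u v)ᵀ) i j := by
    rw [Matrix.mul_apply]
    rfl
  rw [h, BB, Matrix.transpose_sub, Matrix.transpose_one, Matrix.transpose_single, Matrix.mul_sub,
    Matrix.mul_one, Matrix.sub_apply]
  congr 1
  by_cases h : j = u
  · subst h
    simp [mul_comm]
  · simp [h]

/-- The special point is not critical for the first parametrization. -/
theorem mat_eq_zero (G : Dig V) (u v : V) (huv : u ≠ v) (D : Matrix V V ℝ) (c : ℝ)
    (hD1 : ∀ i, D i i = c) (hD2 : ∀ i j, i ≠ j → ¬ G.Adj i j → D i j = 0)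
    (h : ∀ i j, ∑ k, (D i k * BB u v j k + BB u v i k * D j k) = 0) : D = 0 := by
  have h' : ∀ i j, D i j - (if j = u then N V * D i v else 0) +
      (D j i - (if i = u then N V * D j v else 0)) = 0 := by
    intro i j
    rw [← mul_BB u v D i j, ← mul_BB u v D j i, ← h i j, ← Finset.sum_add_distrib]
    exact Finset.sum_congr rfl fun k _ => by ring
  have hc : c = 0 := by
    have h1 := h' v v
    rw [if_neg huv.symm, hD1] at h1
    linarith
  have key : ∀ i j, i ≠ j → D i j + D j i = 0 → D i j = 0 := by
    intro i j hij hs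
    by_cases ha : G.Adj i j
    · have h2 := hD2 j i hij.symm (G.asymm _ _ ha)
      linarith
    · exact hD2 i j hij ha
  have h1 : ∀ i j, i ≠ u → j ≠ u → D i j = 0 := by
    intro i j hi hj
    by_cases hij : i = j
    · rw [hij, hD1, hc]
    · apply key i j hij
      have h3 := h' i j
      rw [if_neg hj, if_neg hi] at h3
      linarith
  have h2 : ∀ i, i ≠ u → D i u = 0 ∧ D u i = 0 := by
    intro i hi
    have h3 := h' i u
    rw [if_pos rfl, if_neg hi, h1 i v hi huv.symm] at h3
    exact ⟨key i u hi (by linarith), key u i hi.symm (by linarith)⟩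
  ext i j
  rw [Matrix.zero_apply]
  by_cases hi : i = u
  · by_cases hj : j = u
    · rw [hi, hj, hD1, hc]
    · rw [hi]
      exact (h2 j hj).2
  · by_cases hj : j = u
    · rw [hj]
      exact (h2 i hi).1
    · exact h1 i j hi hj

/-- The special form is nondegenerate on the parameters of a graph without the edge `u -> v`. -/
theorem mat_eq_zero' (G : Dig V) (u v : V) (huv : u ≠ v) (hG : ¬ G.Adj u v)
    (hN : 2 ≤ N V) (Y : Matrix V V ℝ) (c : ℝ)
    (hY1 : ∀ i, Y i i = c) (hY2 : ∀ i j, i ≠ j → ¬ G.Adj i j → Y i j = 0)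
    (h : ∀ i j, G.Adj i j → (HH u v * Y) i j = 0) (ht : ∑ i, (HH u v * Y) i i = 0) : Y = 0 := by
  have hpos : 0 < N V ^ 2 - N V + 1 := by nlinarith
  have hu : ∀ j, G.Adj u j → Y u j + N V * Y v j = 0 := by
    intro j hj
    have h1 := h u j hj
    rw [HH_mul, if_pos rfl, if_neg huv, hd, if_neg huv] at h1
    linarith
  have hv : ∀ j, G.Adj v j → (N V ^ 2 - N V + 1) * Y v j + N V * Y u j = 0 := by
    intro j hj
    have h1 := h v j hj
    rw [HH_mul, if_pos rfl, if_neg huv.symm, hd, if_pos rfl] at h1
    linarith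
  have huv0 : Y u v = 0 := hY2 u v huv hG
  have h1 : ∀ j, j ≠ u → j ≠ v → Y u j = 0 ∧ Y v j = 0 := by
    intro j hju hjv
    by_cases ha : G.Adj u j
    · by_cases hb : G.Adj v j
      · have h2 := hu j ha
        have h3 := hv j hb
        have h4 : Y v j * (1 - N V) = 0 := by
          have : Y u j = -(N V * Y v j) := by linarith
          rw [this] at h3
          nlinarith
        have h5 : Y v j = 0 := by
          rcases mul_eq_zero.mp h4 with h6 | h6
          · exact h6
          · linarith
        rw [h5] at h2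
        exact ⟨by linarith, h5⟩
      · have h5 := hY2 v j hjv.symm hb
        have h2 := hu j ha
        rw [h5] at h2
        exact ⟨by linarith, h5⟩
    · have h5 := hY2 u j hju.symm ha
      by_cases hb : G.Adj v j
      · have h3 := hv j hb
        rw [h5, mul_zero, add_zero] at h3
        exact ⟨h5, (mul_eq_zero.mp h3).resolve_left hpos.ne'⟩
      · exact ⟨h5, hY2 v j hjv.symm hb⟩
  have htr : N V ^ 2 * c + N V * Y v u = 0 := by
    have h2 : ∑ i, (HH u v * Y) i i = N V ^ 2 * c + N V * Y v u + N V * Y u v := by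
      simp only [HH_mul, hY1, Finset.sum_add_distrib, Finset.sum_ite_eq', Finset.mem_univ,
        if_true, ← Finset.sum_mul, sum_hd]
    rw [ht, huv0] at h2
    linarith
  have hcv : c = 0 ∧ Y v u = 0 := by
    by_cases ha : G.Adj v u
    · have h3 := hv u ha
      rw [hY1 u] at h3
      have h4 : c * (N V * (N V - 1)) = 0 := by
        have h5 : (N V ^ 2 - N V + 1) * (N V ^ 2 * c + N V * Y v u) = 0 := by
          rw [htr, mul_zero]
        have h6 : N V * ((N V ^ 2 - N V + 1) * Y v u + N V * c) = 0 := by
          rw [h3, mul_zero]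
        have h7 : N V * (c * (N V * (N V - 1))) = 0 := by nlinarith
        rcases mul_eq_zero.mp h7 with h8 | h8
        · linarith
        · exact h8
      have h5 : N V * (N V - 1) ≠ 0 := by
        apply mul_ne_zero <;> linarith
      have h6 : c = 0 := (mul_eq_zero.mp h4).resolve_right h5
      rw [h6, mul_zero, add_zero] at h3
      exact ⟨h6, (mul_eq_zero.mp h3).resolve_left hpos.ne'⟩
    · have h3 := hY2 v u huv.symm ha
      rw [h3, mul_zero, add_zero] at htr
      exact ⟨(mul_eq_zero.mp htr).resolve_left (by positivity), h3⟩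
  ext i j
  rw [Matrix.zero_apply]
  by_cases hij : i = j
  · rw [hij, hY1, hcv.1]
  by_cases hiu : i = u
  · subst hiu
    by_cases hjv : j = v
    · rw [hjv, huv0]
    · exact (h1 j (Ne.symm hij) hjv).1
  by_cases hiv : i = v
  · subst hiv
    by_cases hju : j = u
    · rw [hju, hcv.2]
    · exact (h1 j hju (Ne.symm hij)).2
  by_cases ha : G.Adj i j
  · have h3 := h i j ha
    rw [HH_mul, if_neg hiu, if_neg hiv, hd, if_neg hiv] at h3
    linarith
  · exact hY2 i j hij ha

/-! ### The graph is determined by the vanishing ideal -/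

theorem mat_add (G : Dig V) (x y : Option (Edge G) → ℝ) :
    mat G (x + y) = mat G x + mat G y := by
  rw [mat, mat, mat, ← Finset.sum_add_distrib]
  exact Finset.sum_congr rfl fun e _ => by rw [Pi.add_apply, add_smul]

theorem mat_smul (G : Dig V) (a : ℝ) (x : Option (Edge G) → ℝ) :
    mat G (a • x) = a • mat G x := by
  rw [mat, mat, Finset.smul_sum]
  exact Finset.sum_congr rfl fun e _ => by rw [Pi.smul_apply, smul_eq_mul, mul_smul]

theorem mat_inj (G : Dig V) (i : V) (x : Option (Edge G) → ℝ) (h : mat G x = 0) : x = 0 := by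
  funext e
  cases e with
  | none => rw [← mat_diag G x i, h]; rfl
  | some p => rw [← mat_adj G x p.1.1 p.1.2 p.2, h]; rfl

/-- The derivative of the parametrization at the special point. -/
def TT (G : Dig V) (u v : V) : (Option (Edge G) → ℝ) →ₗ[ℝ] (V × V → ℝ) where
  toFun x := fun p => ∑ k, (mat G x p.1 k * BB u v p.2 k + BB u v p.1 k * mat G x p.2 k)
  map_add' x y := by
    funext p
    rw [mat_add, Pi.add_apply, ← Finset.sum_add_distrib]
    refine Finset.sum_congr rfl fun k _ => ?_
    rw [Matrix.add_apply, Matrix.add_apply]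
    ring
  map_smul' a x := by
    funext p
    rw [mat_smul, Pi.smul_apply, smul_eq_mul, Finset.mul_sum]
    refine Finset.sum_congr rfl fun k _ => ?_
    rw [Matrix.smul_apply, Matrix.smul_apply, smul_eq_mul, smul_eq_mul, RingHom.id_apply]
    ring

theorem dir_eq (G : Dig V) [DecidableEq (Option (Edge G))] (e : Option (Edge G)) :
    mat G (Pi.single e 1) = dir G e := by
  rw [mat, Finset.sum_eq_single e]
  · simp
  · intro e' _ h
    simp [h]
  · intro h
    exact absurd (Finset.mem_univ _) h

theorem BB_apply (u v i j : V) : BB u v i j =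
    (if i = j then 1 else 0) - (if u = i ∧ v = j then N V else 0) := by
  rw [BB, Matrix.sub_apply, Matrix.one_apply, Matrix.single_apply]

theorem HH_BB (u v : V) (huv : u ≠ v) (i j : V) (hij : i ≠ j) (h : ¬ (i = v ∧ j = u)) :
    (HH u v * BB u v) i j = 0 := by
  rw [HH_mul, BB_apply, BB_apply, BB_apply, hd]
  by_cases hiu : i = u
  · subst hiu
    by_cases hjv : j = v
    · subst hjv
      simp [huv]
    · simp [huv, hij, Ne.symm hjv]
  · by_cases hiv : i = v
    · subst hiv
      have hju : j ≠ u := fun h' => h ⟨rfl, h'⟩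
      simp [huv, huv.symm, hij, Ne.symm hju]
    · simp [hiu, hiv, hij, Ne.symm hiu]

theorem sum_HH_BB (u v : V) (huv : u ≠ v) : ∑ i, (HH u v * BB u v) i i = 0 := by
  have h1 : ∀ i, BB u v i i = 1 := by
    intro i
    rw [BB_apply, if_pos rfl, if_neg, sub_zero]
    rintro ⟨rfl, h⟩
    exact huv h.symm
  simp only [HH_mul, h1, Finset.sum_add_distrib, Finset.sum_ite_eq', Finset.mem_univ,
    if_true, mul_one, sum_hd]
  rw [BB_apply, BB_apply]
  simp [huv, huv.symm]
  ring

/-- An edge of the first graph is an edge of the second if the vanishing ideals agree. -/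
theorem adj_of_vanIdeal_eq (G₁ G₂ : Dig V) (h : vanIdeal (model G₁) = vanIdeal (model G₂))
    (u v : V) (hadj : G₁.Adj u v) : G₂.Adj u v := by
  classical
  by_contra hG
  have huv : u ≠ v := by
    rintro rfl
    exact G₁.asymm _ _ hadj hadj
  have hN : 2 ≤ N V := by
    have h1 : 1 < Fintype.card V := Fintype.one_lt_card_iff.mpr ⟨u, v, huv⟩
    rw [N]
    exact_mod_cast h1
  obtain ⟨b, _, hbB⟩ := exists_mat G₁ (BB u v) 1 (by
    intro i
    rw [BB, Matrix.sub_apply, Matrix.one_apply_eq, Matrix.single_apply, if_neg, sub_zero]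
    rintro ⟨rfl, rfl⟩
    exact huv rfl) (by
    intro i j hij hn
    rw [BB, Matrix.sub_apply, Matrix.one_apply_ne hij, Matrix.single_apply, if_neg, sub_zero]
    rintro ⟨rfl, rfl⟩
    exact hn hadj)
  obtain ⟨L, hL⟩ := (TT G₁ u v).exists_leftInverse_of_injective (by
    rw [LinearMap.ker_eq_bot']
    intro x hx
    apply mat_inj G₁ u x
    exact mat_eq_zero G₁ u v huv _ (x none) (mat_diag G₁ x) (fun i j hij hn =>
      mat_not_adj G₁ x i j hij hn) (fun i j => congrFun hx (i, j)))
  set Hf : Option (Option (Edge G₁)) → Matrix V V ℝ := fun j => match j with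
    | none => HH u v
    | some e => fun i j => L (Pi.single (i, j) 1) e with hHf
  have hdet := det_eq_zero (fun j => qf G₁ (Hf j)) (fun j => qf G₂ (Hf j))
    (fun j => Sf G₁ (Hf j)) (fun j => Sf G₂ (Hf j)) (fun j e => pderiv_qf G₁ (Hf j) e)
    (fun j e => pderiv_qf G₂ (Hf j) e) (by
      intro f
      rw [aeval_qf, aeval_qf, ← mem_vanIdeal_model, ← mem_vanIdeal_model, h]) b (by
      intro e
      cases e with
      | none =>
        have h1 := Sf_sum_none G₁ (HH u v) (HH_symm u v) b
        rw [hbB, sum_HH_BB u v huv, mul_zero] at h1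
        exact h1
      | some p =>
        have h1 := Sf_sum_some G₁ (HH u v) (HH_symm u v) p b
        rw [hbB, HH_BB u v huv p.1.1 p.1.2 (by
          intro h2
          have := p.2
          rw [h2] at this
          exact G₁.asymm _ _ this this) (by
          rintro ⟨h2, h3⟩
          have := p.2
          rw [h2, h3] at this
          exact G₁.asymm _ _ this hadj), mul_zero] at h1
        exact h1) (by
      intro e e0
      have h1 := Sf_sum G₁ (Hf (some e0)) e b
      rw [hbB, ← dir_eq G₁ e] at h1
      have h2 := congrFun (congrArg DFunLike.coe hL) (Pi.single e 1)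
      have h3 := congrFun h2 e0
      rw [LinearMap.comp_apply, LinearMap.pi_apply_eq_sum_univ L, Finset.sum_apply] at h3
      have h4 : ∑ e', Sf G₁ (Hf (some e0)) e e' * b e' = (Pi.single e 1 : _ → ℝ) e0 := by
        rw [h1]
        refine Eq.trans ?_ h3
        refine Finset.sum_congr rfl fun p _ => ?_
        rw [Pi.smul_apply, smul_eq_mul, mul_comm]
        congr 1
        have h5 : (Pi.single (p.1, p.2) 1 : V × V → ℝ) = fun j => if p = j then 1 else 0 := by
          funext j
          rw [Pi.single_apply]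
          simp only [eq_comm, Prod.mk.eta]
        show L (Pi.single (p.1, p.2) 1) e0 = _
        rw [h5]
      rw [h4, Pi.single_apply]
      simp only [eq_comm])
  obtain ⟨y, hy0, hy⟩ := Matrix.exists_mulVec_eq_zero_iff.mpr hdet
  apply hy0
  apply mat_inj G₂ u y
  apply mat_eq_zero' G₂ u v huv hG hN _ (y none) (mat_diag G₂ y) (fun i j hij hn =>
      mat_not_adj G₂ y i j hij hn)
  · intro i j hij
    have h1 := Sf_sum_some G₂ (HH u v) (HH_symm u v) ⟨(i, j), hij⟩ y
    have h2 : ∑ e', Sf G₂ (HH u v) (some ⟨(i, j), hij⟩) e' * y e' = 0 :=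
      congrFun hy (some ⟨(i, j), hij⟩)
    rw [h2] at h1
    linarith
  · have h1 := Sf_sum_none G₂ (HH u v) (HH_symm u v) y
    have h2 : ∑ e', Sf G₂ (HH u v) none e' * y e' = 0 := congrFun hy none
    rw [h2] at h1
    linarith

end

end Pool.Agent.Q287.SM
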