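import Pool.Agent.Q287.SM.Alg

set_option autoImplicit false

/-!
Homoscedastic linear structural equation models, part 2: graphs, models, the dimension, the
parametrization and its kernel.
-/

namespace Pool.Agent.Q287.SM

open MvPolynomial
open scoped Matrix

universe u

noncomputable section

/-- A simple directed graph: never both `i -> j` and `j -> i` (in particular no loops). -/
@[ext] structure Dig (V : Type u) where
  /-- `Adj i j`: the edge `i -> j` is present. -/
  Adj : V → V → Prop
  /-- Edges are never bidirected. -/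
  asymm : ∀ i j, Adj i j → ¬ Adj j i

/-- Every two distinct nodes are joined by an edge. -/
def Dig.Complete {V : Type u} (G : Dig V) : Prop := ∀ i j, i ≠ j → G.Adj i j ∨ G.Adj j i

variable {V : Type u} [Fintype V] [DecidableEq V]

/-- The homoscedastic linear structural equation model of `G`: all precision matrices
`s (I - L) (I - L)^T` with `s > 0`, `I - L` invertible and `L i j = 0` unless `i -> j`. -/
def model (G : Dig V) : Set (Matrix V V ℝ) :=
  {K | ∃ (L : Matrix V V ℝ) (s : ℝ), (∀ i j, ¬ G.Adj i j → L i j = 0) ∧ IsUnit (1 - L) ∧ 0 < s ∧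
    K = s • ((1 - L) * (1 - L)ᵀ)}

/-- The ideal of all polynomials in the entries of a matrix which vanish on `M`. -/
def vanIdeal (M : Set (Matrix V V ℝ)) : Ideal (MvPolynomial (V × V) ℝ) where
  carrier := {f | ∀ K ∈ M, eval (fun p => K p.1 p.2) f = 0}
  add_mem' := by
    intro a b ha hb K hK
    rw [map_add, ha K hK, hb K hK, add_zero]
  zero_mem' := by
    intro K _
    exact map_zero _
  smul_mem' := by
    intro c a ha K hK
    rw [smul_eq_mul, map_mul, ha K hK, mul_zero]

/-- The dimension of a set of real matrices: the Krull dimension of its ring of polynomial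
functions, that is the dimension of its Zariski closure. -/
def sdim (M : Set (Matrix V V ℝ)) : WithBot ℕ∞ :=
  ringKrullDim (MvPolynomial (V × V) ℝ ⧸ vanIdeal M)

/-- Generic identifiability of the graph in a family of models. -/
def GenericallyIdentifiable (F : Set (Dig V)) : Prop :=
  ∀ G₁ ∈ F, ∀ G₂ ∈ F, G₁ ≠ G₂ →
    sdim (model G₁ ∩ model G₂) < max (sdim (model G₁)) (sdim (model G₂))

/-! ### The parametrization -/

/-- The edges. -/
abbrev Edge (G : Dig V) : Type u := {p : V × V // G.Adj p.1 p.2}

instance (G : Dig V) : Fintype (Edge G) := by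
  classical
  exact inferInstance

/-- The coordinate directions: the identity and the elementary matrices of the edges. -/
def dir (G : Dig V) : Option (Edge G) → Matrix V V ℝ
  | none => 1
  | some p => Matrix.single p.1.1 p.1.2 1

/-- The matrix with given coordinates. -/
def mat (G : Dig V) (x : Option (Edge G) → ℝ) : Matrix V V ℝ := ∑ e, x e • dir G e

/-- The generic matrix. -/
def gen (G : Dig V) : Matrix V V (MvPolynomial (Option (Edge G)) ℝ) :=
  fun i j => ∑ e, C (dir G e i j) * X e

theorem mat_apply (G : Dig V) (x : Option (Edge G) → ℝ) (i j : V) :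
    mat G x i j = ∑ e, x e * dir G e i j := by
  rw [mat, Matrix.sum_apply]
  rfl

theorem mat_diag (G : Dig V) (x : Option (Edge G) → ℝ) (i : V) : mat G x i i = x none := by
  rw [mat_apply, Fintype.sum_option, Finset.sum_eq_zero]
  · simp [dir]
  · rintro ⟨⟨a, b⟩, h⟩ _
    have hab : ¬ (a = i ∧ b = i) := by
      rintro ⟨rfl, rfl⟩
      exact G.asymm _ _ h h
    simp only [dir, Matrix.single_apply, if_neg hab, mul_zero]

theorem mat_adj (G : Dig V) (x : Option (Edge G) → ℝ) (i j : V) (h : G.Adj i j) :
    mat G x i j = x (some ⟨(i, j), h⟩) := by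
  have hij : i ≠ j := by
    rintro rfl
    exact G.asymm _ _ h h
  rw [mat_apply, Fintype.sum_option, Finset.sum_eq_single ⟨(i, j), h⟩]
  · simp [dir, hij]
  · rintro ⟨⟨a, b⟩, h'⟩ _ hne
    have hab : ¬ (a = i ∧ b = j) := by
      rintro ⟨rfl, rfl⟩
      exact hne rfl
    simp only [dir, Matrix.single_apply, if_neg hab, mul_zero]
  · intro h'
    exact absurd (Finset.mem_univ _) h'

theorem mat_not_adj (G : Dig V) (x : Option (Edge G) → ℝ) (i j : V) (hij : i ≠ j)
    (h : ¬ G.Adj i j) : mat G x i j = 0 := by
  rw [mat_apply, Fintype.sum_option, Finset.sum_eq_zero]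
  · simp [dir, hij]
  · rintro ⟨⟨a, b⟩, h'⟩ _
    have hab : ¬ (a = i ∧ b = j) := by
      rintro ⟨rfl, rfl⟩
      exact h h'
    simp only [dir, Matrix.single_apply, if_neg hab, mul_zero]

/-- Every matrix of the right shape is in the image. -/
theorem exists_mat (G : Dig V) (B : Matrix V V ℝ) (c : ℝ) (h1 : ∀ i, B i i = c)
    (h2 : ∀ i j, i ≠ j → ¬ G.Adj i j → B i j = 0) : ∃ x, x none = c ∧ mat G x = B := by
  classical
  refine ⟨fun e => Option.casesOn e c (fun p => B p.1.1 p.1.2), rfl, ?_⟩
  ext i j
  by_cases hij : i = j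
  · subst hij
    rw [mat_diag, h1]
  · by_cases h : G.Adj i j
    · rw [mat_adj G _ i j h]
    · rw [mat_not_adj G _ i j hij h, h2 i j hij h]

theorem eval_gen (G : Dig V) (x : Option (Edge G) → ℝ) (i j : V) :
    eval x (gen G i j) = mat G x i j := by
  rw [gen, map_sum, mat_apply]
  refine Finset.sum_congr rfl fun e _ => ?_
  rw [map_mul, eval_C, eval_X, mul_comm]

/-- The entries of the generic precision matrix. -/
def ker2 (G : Dig V) (p : V × V) : MvPolynomial (Option (Edge G)) ℝ :=
  ∑ k, gen G p.1 k * gen G p.2 k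

/-- The substitution of the parametrization. -/
def phi (G : Dig V) : MvPolynomial (V × V) ℝ →ₐ[ℝ] MvPolynomial (Option (Edge G)) ℝ :=
  aeval (ker2 G)

theorem eval_ker2 (G : Dig V) (x : Option (Edge G) → ℝ) (p : V × V) :
    eval x (ker2 G p) = (mat G x * (mat G x)ᵀ) p.1 p.2 := by
  rw [ker2, map_sum, Matrix.mul_apply]
  refine Finset.sum_congr rfl fun k _ => ?_
  rw [map_mul, eval_gen, eval_gen, Matrix.transpose_apply]

theorem eval_phi (G : Dig V) (x : Option (Edge G) → ℝ) (f : MvPolynomial (V × V) ℝ) :
    eval x (phi G f) = eval (fun p => (mat G x * (mat G x)ᵀ) p.1 p.2) f := by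
  have h : (eval x).comp (algebraMap ℝ (MvPolynomial (Option (Edge G)) ℝ)) = RingHom.id ℝ := by
    ext r
    simp
  rw [phi, aeval_def, eval_eval₂, h]
  simp only [eval_ker2]
  rfl

theorem eval_det (G : Dig V) (x : Option (Edge G) → ℝ) :
    eval x (gen G).det = (mat G x).det := by
  rw [RingHom.map_det]
  congr 1
  ext i j
  rw [RingHom.mapMatrix_apply, Matrix.map_apply, eval_gen]

/-- The vanishing ideal of a model is the kernel of the substitution. -/
theorem mem_vanIdeal_model (G : Dig V) (f : MvPolynomial (V × V) ℝ) :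
    f ∈ vanIdeal (model G) ↔ phi G f = 0 := by
  constructor
  · intro hf
    have hdet : (gen G).det ≠ 0 := by
      intro h0
      obtain ⟨x, _, hx⟩ := exists_mat G (1 : Matrix V V ℝ) 1 (fun i => by simp) (fun i j hij _ => by
        simp [hij])
      have h1 := eval_det G x
      rw [h0, map_zero, hx, Matrix.det_one] at h1
      exact zero_ne_one h1
    have h : phi G f * (X none * (gen G).det) = 0 := by
      apply MvPolynomial.funext
      intro x
      rw [map_zero, map_mul, map_mul, eval_X]
      by_cases hx : x none = 0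
      · rw [hx]; ring
      by_cases hd : (mat G x).det = 0
      · rw [eval_det, hd]; ring
      have h2 : eval x (phi G f) = 0 := by
        rw [eval_phi]
        apply hf
        refine ⟨1 - (x none)⁻¹ • mat G x, (x none) ^ 2, ?_, ?_, by positivity, ?_⟩
        · intro i j hij
          by_cases hne : i = j
          · subst hne
            simp [mat_diag, hx]
          · simp [mat_not_adj G x i j hne hij, hne]
        · rw [sub_sub_cancel, Matrix.isUnit_iff_isUnit_det, Matrix.det_smul, isUnit_iff_ne_zero]
          exact mul_ne_zero (pow_ne_zero _ (inv_ne_zero hx)) hd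
        · have h3 : x none ^ 2 * ((x none)⁻¹ * (x none)⁻¹) = 1 := by
            field_simp
          rw [sub_sub_cancel, Matrix.transpose_smul, Matrix.smul_mul, Matrix.mul_smul, smul_smul,
            smul_smul, mul_assoc, h3, one_smul]
      rw [h2, zero_mul]
    rcases mul_eq_zero.mp h with h1 | h1
    · exact h1
    · rcases mul_eq_zero.mp h1 with h2 | h2
      · exact absurd h2 (X_ne_zero _)
      · exact absurd h2 hdet
  · intro hf K hK
    obtain ⟨L, s, hL, _, hs, rfl⟩ := hK
    obtain ⟨x, _, hx⟩ := exists_mat G (Real.sqrt s • (1 - L)) (Real.sqrt s) (by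
      intro i
      have : L i i = 0 := hL i i (fun h => G.asymm _ _ h h)
      simp [this]) (by
      intro i j hij h
      simp [hij, hL i j h])
    have h1 := eval_phi G x f
    rw [hf, map_zero, hx] at h1
    rw [Matrix.transpose_smul, Matrix.smul_mul, Matrix.mul_smul, smul_smul,
      Real.mul_self_sqrt hs.le] at h1
    exact h1.symm

/-! ### Dimension -/

omit [Fintype V] [DecidableEq V] in
theorem vanIdeal_anti {M N : Set (Matrix V V ℝ)} (h : M ⊆ N) : vanIdeal N ≤ vanIdeal M :=
  fun _ hf K hK => hf K (h hK)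

theorem isPrime_model (G : Dig V) : (vanIdeal (model G)).IsPrime := by
  have h : vanIdeal (model G) = RingHom.ker (phi G).toRingHom := by
    ext f
    rw [mem_vanIdeal_model, RingHom.mem_ker]
    rfl
  rw [h]
  exact RingHom.ker_isPrime _

omit [DecidableEq V] in
/-- Passing to a larger ideal than a prime ideal lowers the dimension. -/
theorem ringKrullDim_lt {I J : Ideal (MvPolynomial (V × V) ℝ)} (hI : I.IsPrime) (h : I < J) :
    ringKrullDim (MvPolynomial (V × V) ℝ ⧸ J) < ringKrullDim (MvPolynomial (V × V) ℝ ⧸ I) := by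
  obtain ⟨r, hrJ, hrI⟩ := SetLike.exists_of_lt h
  have hr : Ideal.Quotient.mk I r ∈ nonZeroDivisors (MvPolynomial (V × V) ℝ ⧸ I) := by
    rw [mem_nonZeroDivisors_iff_ne_zero]
    intro h0
    exact hrI (Ideal.Quotient.eq_zero_iff_mem.mp h0)
  have h1 := ringKrullDim_quotient_succ_le_of_nonZeroDivisor hr
  have hf : ∀ a ∈ Ideal.span {Ideal.Quotient.mk I r}, Ideal.Quotient.factor h.le a = 0 := by
    intro a ha
    rw [Ideal.mem_span_singleton'] at ha
    obtain ⟨c, rfl⟩ := ha
    rw [map_mul, Ideal.Quotient.factor_mk, Ideal.Quotient.eq_zero_iff_mem.mpr hrJ, mul_zero]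
  have h2 : ringKrullDim (MvPolynomial (V × V) ℝ ⧸ J) ≤
      ringKrullDim ((MvPolynomial (V × V) ℝ ⧸ I) ⧸ Ideal.span {Ideal.Quotient.mk I r}) := by
    apply ringKrullDim_le_of_surjective
      (Ideal.Quotient.lift (Ideal.span {Ideal.Quotient.mk I r}) (Ideal.Quotient.factor h.le) hf)
    apply Ideal.Quotient.lift_surjective_of_surjective
    exact Ideal.Quotient.factor_surjective h.le
  have h3 : ringKrullDim (MvPolynomial (V × V) ℝ ⧸ I) ≤ ringKrullDim (MvPolynomial (V × V) ℝ) :=
    ringKrullDim_quotient_le I
  have h4 : ringKrullDim (MvPolynomial (V × V) ℝ) < ⊤ := by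
    rw [MvPolynomial.ringKrullDim_of_isNoetherianRing, ringKrullDim_eq_zero_of_field, zero_add]
    exact WithBot.coe_lt_coe.mpr (ENat.natCast_lt_top _)
  have h5 : (0 : WithBot ℕ∞) ≤ ringKrullDim (MvPolynomial (V × V) ℝ ⧸ I) :=
    ringKrullDim_nonneg_of_nontrivial
  have h6 := (add_le_add_left h2 1).trans h1
  have h7 := h3.trans_lt h4
  revert h5 h6 h7
  generalize ringKrullDim (MvPolynomial (V × V) ℝ ⧸ J) = a
  generalize ringKrullDim (MvPolynomial (V × V) ℝ ⧸ I) = b
  intro h5 h6 h7
  induction b using WithBot.recBotCoe with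
  | bot => exact absurd h5 (by simp)
  | coe n =>
    induction a using WithBot.recBotCoe with
    | bot => exact WithBot.bot_lt_coe n
    | coe m =>
      have h8 : m + 1 ≤ n := by exact_mod_cast h6
      have h9 : n < ⊤ := WithBot.coe_lt_coe.mp h7
      have h10 : m ≠ ⊤ := by
        rintro rfl
        rw [top_add] at h8
        exact absurd h9 (not_lt.mpr h8)
      exact WithBot.coe_lt_coe.mpr ((ENat.add_one_le_iff h10).mp h8)

/-- If the intersection has the full dimension, the two vanishing ideals agree. -/
theorem vanIdeal_eq {G₁ G₂ : Dig V}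
    (h : ¬ sdim (model G₁ ∩ model G₂) < max (sdim (model G₁)) (sdim (model G₂))) :
    vanIdeal (model G₁) = vanIdeal (model G₂) := by
  rw [not_lt, max_le_iff] at h
  have h1 : vanIdeal (model G₁) = vanIdeal (model G₁ ∩ model G₂) := by
    by_contra hne
    exact absurd (ringKrullDim_lt (isPrime_model G₁)
      (lt_of_le_of_ne (vanIdeal_anti Set.inter_subset_left) hne)) (not_lt.mpr h.1)
  have h2 : vanIdeal (model G₂) = vanIdeal (model G₁ ∩ model G₂) := by
    by_contra hne
    exact absurd (ringKrullDim_lt (isPrime_model G₂)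
      (lt_of_le_of_ne (vanIdeal_anti Set.inter_subset_right) hne)) (not_lt.mpr h.2)
  rw [h1, ← h2]

end

end Pool.Agent.Q287.SM
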